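import Mathlib

/-!
# A Coxeter group element whose depth is not realized by a reduced factorization

The Coxeter group is the affine one of type `A₂` (three generators, all orders `3`), the element is
`w = s₀s₂s₁s₀s₂s₁s₀`. It has only one reduced word, of length `7`, and no reflection has a
reduced word that is a factor of length `≥ 3` of it. So every reduced factorization of `w` has cost
`7`. But `w = (s₀s₂s₁s₂s₀) s₁ (...)` is a product of reflections with total cost `6`.
-/

set_option autoImplicit false

namespace Pool.Agent.Results.MP_c1e3ac_co.ReducedDepth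

variable {B W : Type*} [Group W] {M : CoxeterMatrix B}

/-- `L` is a factorization of `w` into reflections. -/
def IsFactorization (cs : CoxeterSystem M W) (w : W) (L : List W) : Prop :=
  (∀ t ∈ L, cs.IsReflection t) ∧ L.prod = w

/-- The cost `∑ (1 + ℓ(t))/2` of a list of reflections (whose lengths are odd). -/
noncomputable def cost (cs : CoxeterSystem M W) (L : List W) : ℕ :=
  (L.map fun t => (1 + cs.length t) / 2).sum

/-- The depth of `w`: the least cost of a factorization into reflections. -/
noncomputable def depth (cs : CoxeterSystem M W) (w : W) : ℕ :=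
  sInf {c | ∃ L, IsFactorization cs w L ∧ cost cs L = c}

/-- The Coxeter matrix of affine type `A₂`. -/
def A2t : CoxeterMatrix (Fin 3) where
  M := Matrix.of fun i j => if i = j then 1 else 3
  isSymm := by
    ext i j
    simp [eq_comm]
  diagonal := by simp
  off_diagonal := by
    intro i j h
    simp [h]

/-- The action of the generators on the orbit of a generic point (numbers game). -/
def fire : Fin 3 → ℤ × ℤ × ℤ → ℤ × ℤ × ℤ
  | 0, (a, b, c) => (-a, b + a, c + a)
  | 1, (a, b, c) => (a + b, -b, c + b)
  | 2, (a, b, c) => (a + c, b + c, -c)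

lemma fire_fire (i : Fin 3) (v : ℤ × ℤ × ℤ) : fire i (fire i v) = v := by
  obtain ⟨a, b, c⟩ := v
  fin_cases i <;> simp [fire]

def fireEquiv (i : Fin 3) : Equiv.Perm (ℤ × ℤ × ℤ) :=
  ⟨fire i, fire i, fire_fire i, fire_fire i⟩

lemma liftable : A2t.IsLiftable fireEquiv := by
  intro i j
  ext1 v
  obtain ⟨a, b, c⟩ := v
  fin_cases i <;> fin_cases j <;>
    simp [A2t, fireEquiv, fire, pow_succ] <;> ring

def run (u : List (Fin 3)) (v : ℤ × ℤ × ℤ) : ℤ × ℤ × ℤ := u.foldr fire v

/-- checks all extensions `u' ++ u` with `|u'| ≤ n`. -/
def check (P : List (Fin 3) → ℤ × ℤ × ℤ → Bool) : ℕ → List (Fin 3) → ℤ × ℤ × ℤ → Bool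
  | 0, u, v => P u v
  | n + 1, u, v => P u v && (check P n (0 :: u) (fire 0 v) &&
      (check P n (1 :: u) (fire 1 v) && check P n (2 :: u) (fire 2 v)))

lemma check_spec (P : List (Fin 3) → ℤ × ℤ × ℤ → Bool) (v0 : ℤ × ℤ × ℤ) :
    ∀ (u' : List (Fin 3)) (n : ℕ) (u : List (Fin 3)), u'.length ≤ n →
      check P n u (run u v0) = true → P (u'.reverse ++ u) (run (u'.reverse ++ u) v0) = true := by
  intro u'
  induction u' with
  | nil =>
    intro n u _ h
    cases n with
    | zero => simpa [check] using h
    | succ n =>
      simp only [check, Bool.and_eq_true] at h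
      simpa using h.1
  | cons i u' ih =>
    intro n u hn h
    cases n with
    | zero => simp at hn
    | succ n =>
      simp only [check, Bool.and_eq_true] at h
      have key : check P n (i :: u) (run (i :: u) v0) = true := by
        fin_cases i
        · exact h.2.1
        · exact h.2.2.1
        · exact h.2.2.2
      have := ih n (i :: u) (by simpa using hn) key
      simpa using this

def w0 : List (Fin 3) := [0, 2, 1, 0, 2, 1, 0]

def P0 (u : List (Fin 3)) (v : ℤ × ℤ × ℤ) : Bool :=
  !(decide (v = run w0 (1, 1, 1))) || decide (u = w0)

lemma check_w0 : check P0 7 [] (1, 1, 1) = true := by decide +kernel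

lemma unique_word (u : List (Fin 3)) (hu : u.length ≤ 7)
    (h : run u (1, 1, 1) = run w0 (1, 1, 1)) : u = w0 := by
  have := check_spec P0 (1, 1, 1) u.reverse 7 [] (by simpa using hu) check_w0
  simpa [P0, h] using this

section main

variable {V : Type*} [Group V] (cs : CoxeterSystem A2t V)

lemma act_wordProd (u : List (Fin 3)) (v : ℤ × ℤ × ℤ) :
    cs.lift ⟨fireEquiv, liftable⟩ (cs.wordProd u) v = run u v := by
  induction u with
  | nil => simp [run]
  | cons i u ih =>
    rw [cs.wordProd_cons, map_mul, Equiv.Perm.mul_apply, ih, cs.lift_apply_simple]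
    rfl

lemma unique_word' (u : List (Fin 3)) (hu : u.length ≤ 7)
    (h : cs.wordProd u = cs.wordProd w0) : u = w0 := by
  apply unique_word u hu
  rw [← act_wordProd cs, ← act_wordProd cs, h]

lemma palindromic_infix (i j : ℕ) (hi : i ≤ 7) (hj : j ≤ 7)
    (h : ((w0.drop i).take j).reverse = (w0.drop i).take j) :
    ((w0.drop i).take j).length ≤ 1 := by
  interval_cases i <;> interval_cases j <;> revert h <;> decide

lemma palindromic_infix' (A p C : List (Fin 3)) (h : A ++ (p ++ C) = w0) (hp : p.reverse = p) :
    p.length ≤ 1 := by
  have hl : A.length + (p.length + C.length) = 7 := by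
    have := congrArg List.length h
    simpa [w0] using this
  have e : (w0.drop A.length).take p.length = p := by
    rw [← h]; simp
  have := palindromic_infix A.length p.length (by omega) (by omega) (by rw [e]; exact hp)
  rwa [e] at this

/-- A reduced word. -/
noncomputable def word (t : V) : List (Fin 3) := (cs.exists_isReduced t).choose

lemma wordProd_word (t : V) : cs.wordProd (word cs t) = t :=
  (cs.exists_isReduced t).choose_spec.2.symm

lemma length_word (t : V) : (word cs t).length = cs.length t := by
  have h := (cs.exists_isReduced t).choose_spec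
  have h1 := h.1.eq
  rw [← h.2] at h1
  exact h1.symm

noncomputable def words (L : List V) : List (Fin 3) := (L.map (word cs)).flatten

lemma wordProd_words (L : List V) : cs.wordProd (words cs L) = L.prod := by
  induction L with
  | nil => simp [words]
  | cons t L ih =>
    have : words cs (t :: L) = word cs t ++ words cs L := by simp [words]
    rw [this, cs.wordProd_append, ih, wordProd_word, List.prod_cons]

lemma length_words (L : List V) : (words cs L).length = (L.map cs.length).sum := by
  induction L with
  | nil => simp [words]
  | cons t L ih =>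
    have : words cs (t :: L) = word cs t ++ words cs L := by simp [words]
    rw [this, List.length_append, ih, length_word]; simp

lemma words_append (L L' : List V) : words cs (L ++ L') = words cs L ++ words cs L' := by
  simp [words]

lemma simple_of_reduced (L : List V) (hL : IsFactorization cs (cs.wordProd w0) L)
    (hle : (L.map cs.length).sum ≤ 7) (t : V) (ht : t ∈ L) : cs.length t = 1 := by
  obtain ⟨L1, L2, rfl⟩ := List.append_of_mem ht
  have h1 : words cs (L1 ++ t :: L2) = w0 :=
    unique_word' cs _ (by rw [length_words]; exact hle) (by rw [wordProd_words, hL.2])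
  have e1 : words cs (L1 ++ t :: L2) = words cs L1 ++ (word cs t ++ words cs L2) := by
    rw [words_append]; simp [words]
  rw [e1] at h1
  have hrefl := hL.1 t ht
  have h2 : words cs L1 ++ ((word cs t).reverse ++ words cs L2) = w0 := by
    apply unique_word' cs
    · have := congrArg List.length h1
      simp only [List.length_append, List.length_reverse] at this ⊢
      rw [this]
      decide
    · rw [cs.wordProd_append, cs.wordProd_append, cs.wordProd_reverse, wordProd_word, hrefl.inv,
        wordProd_words, wordProd_words, ← hL.2]
      simp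
  have h3 : (word cs t).reverse = word cs t := by
    have := h2.trans h1.symm
    rw [List.append_cancel_left_eq, List.append_cancel_right_eq] at this
    exact this
  have h4 := palindromic_infix' _ _ _ h1 h3
  rw [length_word] at h4
  have h5 := hrefl.odd_length
  rcases h5 with ⟨k, hk⟩
  omega

lemma length_w0 : cs.length (cs.wordProd w0) ≤ 7 := cs.length_wordProd_le w0

/-- An explicit factorization of `w` of cost `6`. -/
lemma factorization :
    ∃ L, IsFactorization cs (cs.wordProd w0) L ∧ cost cs L ≤ 6 := by
  refine ⟨[cs.wordProd [0, 2, 0], cs.wordProd [1], cs.wordProd [0, 1, 2, 1, 0]], ⟨?_, ?_⟩, ?_⟩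
  · intro t ht
    simp only [List.mem_cons, List.not_mem_nil, or_false] at ht
    rcases ht with rfl | rfl | rfl
    · refine ⟨cs.wordProd [0], 2, ?_⟩
      rw [← cs.wordProd_reverse, ← cs.wordProd_singleton, ← cs.wordProd_append,
        ← cs.wordProd_append]
      rfl
    · exact ⟨1, 1, by simp⟩
    · refine ⟨cs.wordProd [0, 1], 2, ?_⟩
      rw [← cs.wordProd_reverse, ← cs.wordProd_singleton, ← cs.wordProd_append,
        ← cs.wordProd_append]
      rfl
  · have hb : cs.simple 0 * (cs.simple 1 * cs.simple 0)
        = cs.simple 1 * (cs.simple 0 * cs.simple 1) := by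
      have h := cs.simple_mul_simple_pow 0 1
      have hM : A2t 0 1 = 3 := by decide
      rw [hM] at h
      have h2 : cs.simple 0 * (cs.simple 1 * (cs.simple 0 * (cs.simple 1 *
          (cs.simple 0 * cs.simple 1)))) = 1 := by
        simpa [pow_succ, mul_assoc] using h
      calc cs.simple 0 * (cs.simple 1 * cs.simple 0)
          = (cs.simple 0 * (cs.simple 1 * (cs.simple 0 * (cs.simple 1 *
          (cs.simple 0 * cs.simple 1))))) * (cs.simple 1 * (cs.simple 0 * cs.simple 1)) := by
            simp [mul_assoc]
        _ = cs.simple 1 * (cs.simple 0 * cs.simple 1) := by rw [h2, one_mul]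
    simp only [List.prod_cons, List.prod_nil, cs.wordProd_cons, cs.wordProd_nil, mul_one, w0,
      mul_assoc]
    congr 2
    rw [← mul_assoc (cs.simple 1) (cs.simple 0), ← mul_assoc (cs.simple 0), hb]
    simp [mul_assoc]
  · have h1 := cs.length_wordProd_le [0, 2, 0]
    have h2 := cs.length_wordProd_le [1]
    have h3 := cs.length_wordProd_le [0, 1, 2, 1, 0]
    simp only [cost, List.map_cons, List.map_nil, List.sum_cons, List.sum_nil, List.length_cons,
      List.length_nil] at *
    omega

lemma depth_le : depth cs (cs.wordProd w0) ≤ 6 := by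
  obtain ⟨L, hL, hc⟩ := factorization cs
  exact le_trans (Nat.sInf_le ⟨L, hL, rfl⟩) hc

theorem main (L : List V) (hL : IsFactorization cs (cs.wordProd w0) L)
    (hd : cost cs L = depth cs (cs.wordProd w0)) :
    cs.length (cs.wordProd w0) < (L.map cs.length).sum := by
  by_contra hcon
  have hle : (L.map cs.length).sum ≤ 7 := (not_lt.1 hcon).trans (length_w0 cs)
  have h1 := simple_of_reduced cs L hL hle
  have hsum : (L.map cs.length).sum = 7 := by
    rw [← length_words, unique_word' cs (words cs L) (by rw [length_words]; exact hle)
      (by rw [wordProd_words, hL.2])]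
    rfl
  have hcost : cost cs L = (L.map cs.length).sum := by
    unfold cost
    congr 1
    apply List.map_congr_left
    intro t ht
    rw [h1 t ht]
  have := depth_le cs
  omega

end main

/-- In every Coxeter system with three generators and all `m(i, j) = 3` (`i ≠ j`), that is of affine
type `A₂` (and there is one), the element `w = s₀s₂s₁s₀s₂s₁s₀` has length `7` and depth at most
`6`, its depth is realized by some factorization into reflections, but every factorization into
reflections which realizes the depth of `w` is not reduced. -/
theorem result :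
    ∃ M : CoxeterMatrix (Fin 3), (∀ i j, i ≠ j → M i j = 3) ∧
      (∃ (W : Type) (_ : Group W), Nonempty (CoxeterSystem M W)) ∧
      ∀ (W : Type*) [Group W] (cs : CoxeterSystem M W), ∃ w : W,
        w = cs.wordProd [0, 2, 1, 0, 2, 1, 0] ∧ cs.length w = 7 ∧ depth cs w ≤ 6 ∧
        (∃ L : List W, IsFactorization cs w L ∧ cost cs L = depth cs w) ∧
        ∀ L : List W, IsFactorization cs w L → cost cs L = depth cs w →
          cs.length w < (L.map cs.length).sum := by
  refine ⟨A2t, ?_, ⟨A2t.Group, inferInstance, ⟨A2t.toCoxeterSystem⟩⟩, ?_⟩
  · intro i j h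
    change (if i = j then 1 else 3) = 3
    rw [if_neg h]
  · intro W _ cs
    refine ⟨cs.wordProd w0, rfl, ?_, depth_le cs, ?_, main cs⟩
    · have h := unique_word' cs (word cs (cs.wordProd w0))
        (by rw [length_word]; exact length_w0 cs) (wordProd_word cs _)
      rw [← length_word, h]
      rfl
    · have hne : {c | ∃ L, IsFactorization cs (cs.wordProd w0) L ∧ cost cs L = c}.Nonempty := by
        obtain ⟨L, hL, -⟩ := factorization cs
        exact ⟨_, L, hL, rfl⟩
      exact Nat.sInf_mem hne

end Pool.Agent.Results.MP_c1e3ac_co.ReducedDepth
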